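import Mathlib
import Pool.Agent.Lib_MP_ce8637_ag.Defs
import Pool.Agent.Lib_MP_ce8637_ag.Main

/-!
# Finite generation of the Chow rings of open unions of strata of `𝔐_{0,n}`

Let `U` be an open substack of `𝔐_{0,n}` which is a union of strata.  Open unions of strata
correspond to sets of prestable graphs which are closed under the contraction of edges (smoothing
nodes), and `U` is of finite type if and only if the number of nodes of the curves in `U` is
bounded.  The theorem says that the Chow ring of `U` is then a finitely generated `ℚ`-algebra.

The idea of the proof.  Let `A` be the subalgebra of `CH*(U)` generated by the classes `ψ_i` of the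
markings, by `κ_2`, and by the classes of the closed loci of curves with at least `k` nodes,
`k ≤ m`.  On the open stratum of `Γ` the latter restrict to the elementary symmetric functions of
the normal classes `- ψ_h - ψ_h'` of the edges, so these are integral over `A`.  Moving along the
tree, with `ψ_h = - ψ_h'` at the vertices of valence two and `ψ_h = 0` at the vertices of larger
valence, one sees that all `ψ_h` are integral over `A`; if `Γ` is a chain and `n = 0` one needs in
addition that `κ_2` restricts to minus the sum of the squares of the classes `ψ` of the leaves.  So
the Chow ring of every stratum is a finite `A`-module, and therefore `CH*(U)` is a finite `A`-module.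
-/

set_option autoImplicit false

namespace Pool.Agent.Results.MP_ce8637_ag.FiniteGeneration

open Pool.Agent.PrestableChow

/-- For every `n ≥ 0` and every open union of strata `U` of finite type of the stack `𝔐_{0,n}` of
prestable curves of genus zero with `n` markings, `CH*(U)` is a finitely generated `ℚ`-algebra. -/
theorem result :
    ∀ (n : ℕ) (U : Set (PTree n)),
      (∀ Δ Γ : PTree n, Nonempty (Contraction Δ Γ) → Δ ∈ U → Γ ∈ U) →
      (∃ m : ℕ, ∀ Γ ∈ U, Γ.nE ≤ m) →
      Algebra.FiniteType ℚ (ChowRing n U) := by
  rintro n U _ ⟨m, hm⟩
  exact chow_finiteType U m hm

end Pool.Agent.Results.MP_ce8637_ag.FiniteGeneration
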